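import Mathlib
import Pool.Agent.H26.SP0

set_option autoImplicit false

open Filter Topology Ordinal Set

namespace Pool.Agent.Results.MP_abea68_an.Disproof

open H26 SP0

abbrev K : Type 1 := Icc (1 : Ordinal.{0}) (ω ^ ω)

def R : ℕ → Set Ordinal.{0} → Prop
  | 0, B => B = ∅
  | n + 1, B => ∃ F : Set Ordinal.{0}, F.Finite ∧ ∀ Z, IsClosed Z → Disjoint Z F → R n (B ∩ Z)

lemma R.mono {n : ℕ} : ∀ {B B' : Set Ordinal.{0}}, R n B → B' ⊆ B → R n B' := by
  induction n with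
  | zero => exact fun h h' => subset_eq_empty h' h
  | succ n ih => exact fun ⟨F, h1, h2⟩ h => ⟨F, h1, fun Z a b => ih (h2 Z a b) (inter_subset_inter_left _ h)⟩

lemma R.union {n : ℕ} : ∀ {B B' : Set Ordinal.{0}}, R n B → R n B' → R n (B ∪ B') := by
  induction n with
  | zero => exact fun h h' => union_empty_iff.2 ⟨h, h'⟩
  | succ n ih =>
    exact fun ⟨F, h1, h2⟩ ⟨F', h3, h4⟩ => ⟨F ∪ F', h1.union h3, fun Z a b => union_inter_distrib_right .. ▸
      ih (h2 Z a (b.mono_right subset_union_left)) (h4 Z a (b.mono_right subset_union_right))⟩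

lemma R.empty (n : ℕ) : R n ∅ := by
  induction n with
  | zero => rfl
  | succ n ih => exact ⟨∅, finite_empty, fun _ _ _ => ih.mono inter_subset_left⟩

lemma R.b {n : ℕ} (h : ∀ γ, R (n + 1) (Ioc γ (γ + ω ^ n))) (γ : Ordinal.{0}) (j : ℕ) :
    R (n + 1) (Ioc γ (b γ n j)) := by
  induction j with
  | zero => simpa [b_zero] using R.empty _
  | succ j ih => exact (ih.union (h (SP0.b γ n j))).mono (b_succ γ n j ▸ Ioc_subset_Ioc_union_Ioc)

lemma R.ioc (n : ℕ) : ∀ γ, R (n + 1) (Ioc γ (γ + ω ^ n)) := by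
  induction n with
  | zero =>
    refine fun γ => ⟨{γ + 1}, finite_singleton _, fun Z _ h => eq_empty_of_forall_notMem fun x hx =>
      disjoint_left.1 h hx.2 (le_antisymm (by simpa using hx.1.2) (Order.add_one_le_of_lt hx.1.1))⟩
  | succ n ih =>
    refine fun γ => ⟨{γ + ω ^ (n + 1)}, finite_singleton _, fun Z h1 h2 => ?_⟩
    obtain ⟨j, hj⟩ := near (h1.isOpen_compl.mem_nhds (disjoint_singleton_right.1 h2))
    exact (R.b ih γ j).mono fun x hx => ⟨hx.1.1, not_lt.1 fun h => hj ⟨h, hx.1.2⟩ hx.2⟩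

lemma le_top (n : ℕ) : (ω : Ordinal.{0}) ^ n < ω ^ ω := by
  rw [← opow_natCast]
  exact (opow_lt_opow_iff_right one_lt_omega0).2 (natCast_lt_omega0 n)

lemma one_le : (1 : Ordinal.{0}) ≤ ω ^ ω := by simpa using (le_top 0).le

noncomputable def ind (γ : Ordinal.{0}) (n j : ℕ) : C(K, ℝ) :=
  ⟨fun x => (Ioc (b γ n j) (b γ n j + ω ^ n)).indicator 1 x.1,
    ((clopen _ _).continuous_indicator continuous_const).comp continuous_subtype_val⟩

lemma ind_le (γ : Ordinal.{0}) (n N : ℕ) (σ : ℕ → ℝ) (h : ∀ j, |σ j| ≤ 1) :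
    ‖∑ j ∈ Finset.range N, σ j • ind γ n j‖ ≤ 1 := by
  refine (ContinuousMap.norm_le _ zero_le_one).2 fun x => ?_
  simp only [ContinuousMap.coe_sum, Finset.sum_apply, ContinuousMap.smul_apply, ind,
    ContinuousMap.coe_mk, _root_.smul_eq_mul]
  by_cases hx : ∃ j, x.1 ∈ Ioc (b γ n j) (b γ n j + ω ^ n)
  · obtain ⟨j, hj⟩ := hx
    rw [Finset.sum_congr rfl (g := fun i => if i = j then σ i else 0) fun i _ => by
      split_ifs with h
      exacts [by simp [h, hj], by rw [indicator_of_notMem fun h' => h (b_disj h' hj), mul_zero]],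
      Finset.sum_ite_eq']
    split_ifs
    exacts [h j, by simp]
  · rw [Finset.sum_eq_zero fun j _ => by rw [indicator_of_notMem fun h => hx ⟨j, h⟩, mul_zero]]
    simp

lemma null (γ : Ordinal.{0}) (n : ℕ) (φ : C(K, ℝ) →L[ℝ] ℝ) {ε : ℝ} (hε : 0 < ε) :
    ∀ᶠ j in atTop, |φ (ind γ n j)| < ε := by
  refine (summable_of_sum_range_le (c := ‖φ‖) (fun _ => abs_nonneg _)
    fun N => ?_).tendsto_atTop_zero.eventually (gt_mem_nhds hε)
  have := φ.unit_le_opNorm _ (ind_le γ n N (fun j => SignType.sign (φ (ind γ n j))) fun j => by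
    rcases SignType.sign (φ (ind γ n j)) with _ | _ | _ <;> simp)
  simp only [map_sum, map_smul, _root_.smul_eq_mul, sign_mul_self] at this
  exact (le_abs_self _).trans this

lemma ind_one (γ : Ordinal.{0}) (n j : ℕ) : ‖ind γ n j‖ ≤ 1 :=
  (ContinuousMap.norm_le _ zero_le_one).2 fun x => by
    simp only [ind, ContinuousMap.coe_mk, indicator]
    split_ifs <;> simp

lemma game (u : Ordinal.{0} → C(K, ℝ) →L[ℝ] ℝ) (hu : ∀ g, Continuous fun x => u x g) {M ε : ℝ}
    (h0 : 0 ≤ M) (hM : ∀ x, ‖u x‖ ≤ M) (hε : 0 < ε) {n : ℕ} {A : Set Ordinal.{0}} (hA : R n A) (l : ℕ) :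
    ∀ k, ∃ (γ : Ordinal.{0}) (G : C(K, ℝ)) (C : ℕ → Set Ordinal.{0}), γ + ω ^ k ≤ ω ^ ω ∧
      (∀ x : K, x.1 ∈ Ioc γ (γ + ω ^ k) → G x = l) ∧ (∀ s ≤ n, R s (C s)) ∧ A ⊆ C n ∧
        ∀ s < n, ∀ x ∈ A, x ∉ C s → |u x G| + (s + 1) * M ≤ n * M + l * ε := by
  induction l with
  | zero =>
    refine fun k => ⟨0, 0, fun s => if s < n then ∅ else A, by simpa using (le_top k).le, by simp,
      fun s hs => ?_, by simp, fun s hs x _ _ => ?_⟩
    · dsimp only
      split_ifs with h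
      exacts [R.empty s, (le_antisymm hs (not_lt.1 h)).symm ▸ hA]
    · simpa using mul_le_mul_of_nonneg_right (show (s + 1 : ℝ) ≤ n by exact_mod_cast hs) h0
  | succ l ih =>
    intro k
    obtain ⟨γ, G, C, h1, h2, h3, h4, h5⟩ := ih (k + 1)
    choose F f1 f2 using fun s : Fin n => h3 (s + 1) s.2
    obtain ⟨j, hj⟩ := ((eventually_all_finite (finite_iUnion f1)).2 fun x _ => null γ k (u x) hε).exists
    refine ⟨b γ k j, G + ind γ k j, fun s => if s < n then C s ∪ C (s + 1) ∩ {x | ε ≤ |u x (ind γ k j)|}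
      else C s, (b_succ γ k j ▸ b_lt γ k _).le.trans h1, fun x hx => ?_, fun s hs => ?_, by simpa,
      fun s hs x hx h => ?_⟩
    · simp [h2 x (Ioo_subset_Ioc_self (b_sub γ k j hx)), ind, hx]
    · dsimp only
      split_ifs with h
      exacts [(h3 s hs).union (f2 ⟨s, h⟩ _ (isClosed_le continuous_const (hu _).abs) (disjoint_left.2
        fun x a b => (hj x (mem_iUnion.2 ⟨_, b⟩)).not_ge a)), h3 s hs]
    · simp only [if_pos hs, mem_union, mem_inter_iff, mem_setOf, not_or, not_and_or, not_le] at h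
      have h6 := abs_add_le (u x G) (u x (ind γ k j))
      rw [map_add]
      push_cast
      rcases h.2 with h7 | h7
      · have h8 := h5 (s + 1) (lt_of_le_of_ne hs fun e => h7 (e ▸ h4 hx)) x hx h7
        have h9 : |u x (ind γ k j)| ≤ M := ((u x).unit_le_opNorm _ (ind_one γ k j)).trans (hM x)
        push_cast at h8
        linarith
      · linarith [h5 s hs x hx h.1]

theorem result (T : C(K, ℝ) →L[ℝ] C(K, ℝ)) (c : ℝ) (hc : 0 < c) (hT : ∀ f, c * ‖f‖ ≤ ‖T f‖)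
    (C : ℝ) (hC : 1 ≤ C) : ¬ SPR C (range T) := fun H => by
  let u : Ordinal.{0} → C(K, ℝ) →L[ℝ] ℝ := fun x =>
    (ContinuousMap.evalCLM ℝ (projIcc 1 _ one_le x)).comp T
  have hu : ∀ g, Continuous fun x => u x g := fun g => (T g).continuous.comp continuous_projIcc
  have c0 : 0 < c / C := by positivity
  obtain ⟨j, hj⟩ := (null 0 0 (u (ω ^ ω)) c0).exists
  obtain ⟨a, a1, a2⟩ := exists_Ioc_subset_of_mem_nhds ((isOpen_lt (hu _).abs continuous_const).mem_nhds hj)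
    ⟨_, le_top 0⟩
  obtain ⟨_, n1, n2⟩ := (lt_opow_of_isSuccLimit omega0_ne_zero isSuccLimit_omega0).1 a1
  obtain ⟨n, rfl⟩ := lt_omega0.1 n1
  obtain ⟨l, hl⟩ := exists_nat_gt ((n + 1) * ‖T‖ / (c / C / 2))
  obtain ⟨γ, G, D, h1, h2, h3, -, h4⟩ := game u hu (norm_nonneg T) (fun x =>
    ContinuousLinearMap.opNorm_le_bound _ (norm_nonneg T) fun g =>
      ((T g).norm_coe_le_norm _).trans (T.le_opNorm g)) (half_pos c0) (R.ioc n 0) l 0
  rw [div_lt_iff₀ (half_pos c0)] at hl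
  have l0 : (0 : ℝ) < l := (mul_pos_iff_of_pos_right (half_pos c0)).1 (lt_of_le_of_lt (by positivity) hl)
  have k1 : ∀ (γ : Ordinal.{0}) (G : C(K, ℝ)), γ + ω ^ 0 ≤ ω ^ ω →
      (∀ x : K, x.1 ∈ Ioc γ (γ + ω ^ 0) → G x = l) → 2 * (c * l) ≤ ‖(2 : ℝ) • T G‖ := fun γ G h1 h2 => by
    have := G.norm_coe_le_norm ⟨γ + ω ^ 0, by simp, h1⟩
    rw [h2 _ ⟨lt_add_of_pos_right _ (pos 0), le_rfl⟩, Real.norm_natCast] at this
    rw [norm_smul, Real.norm_two]
    linarith [hT G, mul_le_mul_of_nonneg_left this hc.le]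
  have k2 := H _ ⟨(l : ℝ) • ind 0 0 j + G, rfl⟩ _ ⟨(l : ℝ) • ind 0 0 j - G, rfl⟩
  rw [map_add, map_sub, add_sub_sub_cancel, add_add_sub_cancel, ← two_smul ℝ, ← two_smul ℝ] at k2
  replace k2 := (le_min (k1 γ G h1 h2) (k1 (b 0 0 j) _ ((b_succ 0 0 j ▸ b_lt 0 0 _).le.trans (by
    simpa using (le_top 1).le)) fun x hx => by
      simp only [ContinuousMap.smul_apply, ind, ContinuousMap.coe_mk, indicator_of_mem hx]; simp)).trans k2
  refine k2.not_gt ((lt_div_iff₀' (by positivity)).1 (((ContinuousMap.norm_lt_iff _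
    (by positivity)).2 fun x => ?_)))
  have e : ∀ g, u x.1 g = T g x := fun g => congrArg (T g) (projIcc_val one_le x)
  simp only [ContinuousMap.sub_apply, ContinuousMap.abs_apply, ContinuousMap.add_apply, Real.norm_eq_abs,
    abs_id, map_smul, ContinuousMap.smul_apply, _root_.smul_eq_mul, abs_mul, Nat.abs_cast, ← e]
  rw [mul_div_assoc, mul_div_right_comm, mul_lt_mul_iff_right₀ two_pos, min_lt_iff]
  rcases le_or_gt x.1 a with h | h
  · have := h4 0 n.succ_pos x ⟨one_pos.trans_le x.2.1, by simpa using (h.trans n2.le)⟩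
      ((h3 0 (Nat.zero_le _) : D 0 = ∅) ▸ id)
    push_cast at this
    exact .inr (by linarith [norm_nonneg T])
  · exact .inl (by nlinarith [show |u x _| < _ from a2 ⟨h, x.2.2⟩])

end Pool.Agent.Results.MP_abea68_an.Disproof
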